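import Pool.Agent.H688R3.Paging.Main

set_option autoImplicit false

/-!
# The comparative ratio of paging with lookaheads `i` and `l` is `min k ⌈(l + 1) / (i + 1)⌉`

For every memory size `k ≥ 1`, every universe with more than `k` pages and all initial contents.

Upper bound: the algorithm with lookahead `i` simulates the algorithm `B` with lookahead `l`, whose
contents it knows with a delay of `l - i` requests.  At a fault it evicts a page that `B` is known
not to have; if there is none, it evicts the page whose next visible request is the farthest.
Lower bound: blocks of `i + 1` requests to the same page, out of `k + 1` pages.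
-/

open scoped ENNReal

namespace Pool.Agent.Results.MP_9bbf37_lc.ExactComparativeRatio

open Pool.Agent.H688R3.Paging

theorem result {U : Type} [DecidableEq U] {k : ℕ} (hk : 1 ≤ k)
    (hU : ∃ P : Finset U, k < P.card) {S₀ : Finset U} (hS : S₀.card ≤ k) (i l : ℕ) :
    comparativeRatio (𝓛 k S₀ i) (𝓛 k S₀ l) =
      ((min k ⌈((l : ℝ) + 1) / ((i : ℝ) + 1)⌉₊ : ℕ) : ℝ≥0∞) :=
  comparativeRatio_eq hk hU hS i l

end Pool.Agent.Results.MP_9bbf37_lc.ExactComparativeRatio
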